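import Pool.Agent.V1166.GA.Right

/-!
# MP_12d20c_al, Q1 (positive answer)

Every preprojective right module over a graded right artinian ring is gradable.

Right `R`-modules are modules over `Rᵐᵒᵖ`.
-/

namespace Pool.Agent.Results.MP_12d20c_al.PreprojectiveGradable

universe u

/-- `R` is a graded ring: `R = ⨁ R_i` (internal direct sum of additive subgroups) and
`R_i R_j ⊆ R_{i+j}`. -/
def IsGradedRing {R : Type u} [Ring R] (A : ℤ → AddSubgroup R) : Prop :=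
  DirectSum.IsInternal A ∧ ∀ i j : ℤ, ∀ a ∈ A i, ∀ b ∈ A j, a * b ∈ A (i + j)

/-- `N` with the family `B` is a graded right module: `N = ⨁ N_i` and `N_i R_j ⊆ N_{i+j}`. -/
def IsGradedModule {R : Type u} [Ring R] (A : ℤ → AddSubgroup R) {N : Type u} [AddCommGroup N]
    [Module Rᵐᵒᵖ N] (B : ℤ → AddSubgroup N) : Prop :=
  DirectSum.IsInternal B ∧ ∀ i j : ℤ, ∀ n ∈ B i, ∀ r ∈ A j, MulOpposite.op r • n ∈ B (i + j)

/-- `M` is gradable: it is isomorphic, as an ungraded right module, to a graded right module. -/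
def Gradable {R : Type u} [Ring R] (A : ℤ → AddSubgroup R) (M : Type u) [AddCommGroup M]
    [Module Rᵐᵒᵖ M] : Prop :=
  ∃ (N : Type u) (_ : AddCommGroup N) (_ : Module Rᵐᵒᵖ N) (B : ℤ → AddSubgroup N),
    IsGradedModule A B ∧ Nonempty (M ≃ₗ[Rᵐᵒᵖ] N)

/-- `Y ∈ add X`: `Y` is isomorphic to a direct summand of some `X ^ n`. -/
def InAdd {R : Type u} [Ring R] (X Y : Type u) [AddCommGroup X] [Module Rᵐᵒᵖ X]
    [AddCommGroup Y] [Module Rᵐᵒᵖ Y] : Prop :=
  ∃ (n : ℕ) (i : Y →ₗ[Rᵐᵒᵖ] (Fin n → X)) (p : (Fin n → X) →ₗ[Rᵐᵒᵖ] Y), p ∘ₗ i = LinearMap.id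

/-- A finitely presented indecomposable right module `Y` is preprojective if for some finitely
presented `X`: `Y ∉ add X`, and for every non-split epimorphism `f : Z → Y` with `Z` finitely
presented, `Z` has a nonzero direct summand in `add X`. -/
def Preprojective {R : Type u} [Ring R] (Y : Type u) [AddCommGroup Y] [Module Rᵐᵒᵖ Y] : Prop :=
  Module.FinitePresentation Rᵐᵒᵖ Y ∧
  (Nontrivial Y ∧ ∀ P Q : Submodule Rᵐᵒᵖ Y, IsCompl P Q → P = ⊥ ∨ Q = ⊥) ∧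
  ∃ (X : Type u) (_ : AddCommGroup X) (_ : Module Rᵐᵒᵖ X),
    Module.FinitePresentation Rᵐᵒᵖ X ∧ ¬ InAdd (R := R) X Y ∧
    ∀ (Z : Type u) (_ : AddCommGroup Z) (_ : Module Rᵐᵒᵖ Z) (f : Z →ₗ[Rᵐᵒᵖ] Y),
      Module.FinitePresentation Rᵐᵒᵖ Z → Function.Surjective f →
      (¬ ∃ s : Y →ₗ[Rᵐᵒᵖ] Z, f ∘ₗ s = LinearMap.id) →
      ∃ P Q : Submodule Rᵐᵒᵖ Z, IsCompl P Q ∧ P ≠ ⊥ ∧ InAdd (R := R) X P

/-- Over a graded right artinian ring every preprojective right module is gradable. -/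
theorem result (R : Type u) [Ring R] (A : ℤ → AddSubgroup R) (hA : IsGradedRing A)
    (hR : IsArtinian Rᵐᵒᵖ R) (Y : Type u) [AddCommGroup Y] [Module Rᵐᵒᵖ Y]
    (hY : Preprojective (R := R) Y) : Gradable A Y :=
  Pool.Agent.V1166.GA.right_prep R A hA hR Y hY

end Pool.Agent.Results.MP_12d20c_al.PreprojectiveGradable
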